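import Mathlib

/-!
# Halving the upper bound for First-Fit anti-Ramsey numbers

The First-Fit anti-Ramsey number `ARFF H` of a finite graph `H` with at least one edge is at most
`(τ(H) + 1) k / 2`, where `k` is the number of edges and `τ(H)` the vertex cover number of `H`.

As the First-Fit rule is deterministic, what Builder can ensure with `t` edges is decided by the
sequence of the `t` edges which are added; the vertices are taken from `ℕ`, so that new vertices
are always available.
-/

set_option autoImplicit false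

open Finset

namespace Pool.Agent.Results.MP_071c0d_co.HalfBound

/-- `c` is the First-Fit colouring of the edges `e 0, e 1, …, e (t - 1)`, added in this order: the
colour of each edge is the least positive integer which is not the colour of an earlier edge
sharing a vertex with it. -/
def IsFirstFit {t : ℕ} (e : Fin t → Sym2 ℕ) (c : Fin t → ℕ) : Prop :=
  ∀ i : Fin t,
    IsLeast {a : ℕ | 0 < a ∧ ∀ j : Fin t, j < i → (∃ v, v ∈ e j ∧ v ∈ e i) → c j ≠ a} (c i)

/-- The graph with the edges `e i`, coloured by `c`, contains a rainbow copy of `H`. -/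
def HasRainbowCopy {V : Type} (H : SimpleGraph V) {t : ℕ} (e : Fin t → Sym2 ℕ) (c : Fin t → ℕ) :
    Prop :=
  ∃ f : V → ℕ, Function.Injective f ∧
    (∀ u v : V, H.Adj u v → ∃ i, e i = s(f u, f v)) ∧
    ∀ u v u' v' : V, H.Adj u v → H.Adj u' v' → s(u, v) ≠ s(u', v') →
      ∀ i j, e i = s(f u, f v) → e j = s(f u', f v') → c i ≠ c j

/-- Builder can ensure a rainbow copy of `H` with `t` edges: there are `t` different edges (pairs of
different vertices) which, added in a suitable order and coloured by First-Fit, contain a rainbow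
copy of `H`. -/
def Forces {V : Type} (H : SimpleGraph V) (t : ℕ) : Prop :=
  ∃ (e : Fin t → Sym2 ℕ) (c : Fin t → ℕ), Function.Injective e ∧ (∀ i, ¬ (e i).IsDiag) ∧
    IsFirstFit e c ∧ HasRainbowCopy H e c

/-- The First-Fit anti-Ramsey number. -/
noncomputable def ARFF {V : Type} (H : SimpleGraph V) : ℕ := sInf {t | Forces H t}

/-- The vertex cover number. -/
noncomputable def tau {V : Type} (H : SimpleGraph V) : ℕ :=
  sInf {m | ∃ C : Finset V, C.card = m ∧ ∀ u v : V, H.Adj u v → u ∈ C ∨ v ∈ C}

/-- Sorting the edges of a coloured graph by colour. -/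
theorem forces_of_colouring {V W I : Type} [Fintype I] (H : SimpleGraph V)
    (ι : W → ℕ) (hι : Function.Injective ι)
    (edge : I → Sym2 W) (col : I → ℕ) (hinj : Function.Injective edge)
    (hdiag : ∀ i, ¬ (edge i).IsDiag) (hpos : ∀ i, 0 < col i)
    (hproper : ∀ i j, i ≠ j → (∃ v, v ∈ edge i ∧ v ∈ edge j) → col i ≠ col j)
    (hgreedy : ∀ i a, 0 < a → a < col i → ∃ j, (∃ v, v ∈ edge j ∧ v ∈ edge i) ∧ col j = a)
    (f : V → W) (hf : Function.Injective f)
    (hcopy : ∀ u v : V, H.Adj u v → ∃ i, edge i = s(f u, f v))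
    (hrainbow : ∀ u v u' v' : V, H.Adj u v → H.Adj u' v' → s(u, v) ≠ s(u', v') →
      ∀ i j, edge i = s(f u, f v) → edge j = s(f u', f v') → col i ≠ col j) :
    Forces H (Fintype.card I) := by
  classical
  let g : Fin (Fintype.card I) ≃ I := (Fintype.equivFin I).symm
  let σ := Tuple.sort (col ∘ g)
  have hmono : Monotone (col ∘ g ∘ σ) := Tuple.monotone_sort (col ∘ g)
  let h : Fin (Fintype.card I) ≃ I := σ.trans g
  have hmono' : ∀ i j, i ≤ j → col (h i) ≤ col (h j) := fun i j hij => hmono hij
  have hmap : Function.Injective (Sym2.map ι) := Sym2.map.injective hι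
  have hmem : ∀ (x y : Sym2 W), (∃ v, v ∈ Sym2.map ι x ∧ v ∈ Sym2.map ι y) ↔
      ∃ v, v ∈ x ∧ v ∈ y := by
    intro x y
    constructor
    · rintro ⟨v, hv, hv'⟩
      rw [Sym2.mem_map] at hv hv'
      obtain ⟨a, ha, rfl⟩ := hv
      obtain ⟨b, hb, hab⟩ := hv'
      have := hι hab
      subst this
      exact ⟨b, ha, hb⟩
    · rintro ⟨v, hv, hv'⟩
      exact ⟨ι v, Sym2.mem_map.2 ⟨v, hv, rfl⟩, Sym2.mem_map.2 ⟨v, hv', rfl⟩⟩
  refine ⟨fun i => Sym2.map ι (edge (h i)), fun i => col (h i), ?_, ?_, ?_, ?_⟩
  · exact hmap.comp (hinj.comp h.injective)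
  · intro i hi
    exact hdiag (h i) ((Sym2.isDiag_map hι).1 hi)
  · intro i
    refine ⟨⟨hpos _, ?_⟩, ?_⟩
    · intro j hji hadj
      exact hproper _ _ (fun hh => (ne_of_lt hji) (h.injective hh)) ((hmem _ _).1 hadj)
    · rintro a ⟨ha, hall⟩
      by_contra hlt
      push Not at hlt
      obtain ⟨j, hj, hcol⟩ := hgreedy (h i) a ha hlt
      have hji : h.symm j < i := by
        by_contra hge
        push Not at hge
        have := hmono' _ _ hge
        rw [h.apply_symm_apply, hcol] at this
        omega
      refine hall (h.symm j) hji ?_ ?_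
      · show ∃ v, v ∈ Sym2.map ι (edge (h (h.symm j))) ∧ v ∈ Sym2.map ι (edge (h i))
        rw [h.apply_symm_apply]
        exact (hmem _ _).2 hj
      · show col (h (h.symm j)) = a
        rw [h.apply_symm_apply]
        exact hcol
  · refine ⟨ι ∘ f, hι.comp hf, ?_, ?_⟩
    · intro u v huv
      obtain ⟨i, hi⟩ := hcopy u v huv
      refine ⟨h.symm i, ?_⟩
      simp [hi]
    · intro u v u' v' huv huv' hne i j hi hj
      refine hrainbow u v u' v' huv huv' hne _ _ ?_ ?_
      · apply hmap
        simpa using hi
      · apply hmap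
        simpa using hj

/-- The number of edges needed if the edges are partitioned into stars with centres
`v 0, v 1, …`, in this order. -/
theorem forces_of_stars {V : Type} [Fintype V] [DecidableEq V] (H : SimpleGraph V)
    [DecidableRel H.Adj] {τ : ℕ}
    (v : Fin τ → V) (hv : Function.Injective v) (s : H.edgeFinset → Fin τ)
    (hs : ∀ e : H.edgeFinset, v (s e) ∈ (e : Sym2 V)) :
    ∃ t, Forces H t ∧
      t ≤ H.edgeFinset.card + ∑ j : Fin τ, (Finset.univ.filter (fun e => s e < j)).card := by
  classical
  set k := H.edgeFinset.card with hk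
  -- the rank function
  let g : Fin k ≃ H.edgeFinset := (H.edgeFinset.equivFin).symm
  let σ := Tuple.sort (s ∘ g)
  have hmono : Monotone (s ∘ g ∘ σ) := Tuple.monotone_sort (s ∘ g)
  let r : H.edgeFinset ≃ Fin k := (σ.trans g).symm
  have hrs : ∀ e e', r e ≤ r e' → s e ≤ s e' := by
    intro e e' hee
    have := hmono hee
    simpa [r] using this
  let a : Fin τ → ℕ := fun j => (Finset.univ.filter (fun e => s e < j)).card
  have hak : ∀ j, a j ≤ k := by
    intro j
    calc a j ≤ (Finset.univ : Finset H.edgeFinset).card := Finset.card_le_card (filter_subset _ _)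
      _ = k := by simp [hk]
  have hra : ∀ e j, s e < j → (r e : ℕ) < a j := by
    intro e j hej
    have h1 : (Finset.univ.filter (fun e' => r e' ≤ r e)).card ≤ a j := by
      apply Finset.card_le_card
      intro e' he'
      simp only [mem_filter, mem_univ, true_and] at he' ⊢
      exact lt_of_le_of_lt (hrs _ _ he') hej
    have h2 : (Finset.univ.filter (fun e' => r e' ≤ r e)).card = (r e : ℕ) + 1 := by
      rw [← Fin.card_Iic (r e)]
      apply Finset.card_bij (fun e' _ => r e')
      · intro e' he'
        simpa using he'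
      · intro x _ y _ hxy
        exact r.injective hxy
      · intro b hb
        exact ⟨r.symm b, by simpa using hb, by simp⟩
    omega
  -- the index type
  let P : Type := {p : Fin τ × Fin k // (p.2 : ℕ) < a p.1 ∧ v p.1 ∉ (r.symm p.2 : Sym2 V)}
  let W : Type := V ⊕ (Fin τ × Fin k)
  let edge : H.edgeFinset ⊕ P → Sym2 W := fun i =>
    match i with
    | Sum.inl e => Sym2.map Sum.inl (e : Sym2 V)
    | Sum.inr p => s(Sum.inl (v p.1.1), Sum.inr p.1)
  let col : H.edgeFinset ⊕ P → ℕ := fun i =>
    match i with
    | Sum.inl e => (r e : ℕ) + 1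
    | Sum.inr p => (p.1.2 : ℕ) + 1
  have hinl : Function.Injective (Sum.inl : V → W) := Sum.inl_injective
  have hmem_inl : ∀ (x : V) (z : Sym2 V), (Sum.inl x : W) ∈ Sym2.map (Sum.inl : V → W) z ↔ x ∈ z := by
    intro x z
    rw [Sym2.mem_map]
    constructor
    · rintro ⟨y, hy, hxy⟩
      rwa [← hinl hxy]
    · intro hx
      exact ⟨x, hx, rfl⟩
  have hmem_inr : ∀ (x : Fin τ × Fin k) (z : Sym2 V), (Sum.inr x : W) ∉ Sym2.map (Sum.inl : V → W) z := by
    intro x z hx
    rw [Sym2.mem_map] at hx
    obtain ⟨y, _, hy⟩ := hx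
    exact Sum.inl_ne_inr hy
  have hcard : Fintype.card (H.edgeFinset ⊕ P) ≤ k + ∑ j : Fin τ, a j := by
    rw [Fintype.card_sum]
    have h1 : Fintype.card H.edgeFinset = k := Fintype.card_coe _
    have h2 : Fintype.card P ≤ ∑ j : Fin τ, a j := by
      have : Fintype.card P ≤ Fintype.card (Σ j : Fin τ, Fin (a j)) := by
        apply Fintype.card_le_of_injective
          (fun p : P => (⟨p.1.1, ⟨p.1.2, p.2.1⟩⟩ : Σ j : Fin τ, Fin (a j)))
        rintro ⟨⟨j, b⟩, h1, h2⟩ ⟨⟨j', b'⟩, h1', h2'⟩ hh
        simp only [Sigma.mk.injEq] at hh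
        obtain ⟨hj, hb⟩ := hh
        subst hj
        have hb' := eq_of_heq hb
        simp only [Fin.mk.injEq] at hb'
        have : b = b' := Fin.ext hb'
        subst this
        rfl
      rw [Fintype.card_sigma] at this
      simpa using this
    omega
  refine ⟨Fintype.card (H.edgeFinset ⊕ P), ?_, hcard⟩
  obtain ⟨ι, hι⟩ : ∃ ι : W → ℕ, Function.Injective ι :=
    (countable_iff_exists_injective W).1 inferInstance
  refine forces_of_colouring H ι hι edge col ?_ ?_ ?_ ?_ ?_ Sum.inl hinl ?_ ?_
  · -- injective
    rintro (e | p) (e' | p') hh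
    · have : (e : Sym2 V) = e' := (Sym2.map.injective hinl) hh
      rw [Subtype.ext this]
    · exfalso
      have h1 : (Sum.inr p'.1 : W) ∈ edge (Sum.inr p') := Sym2.mem_mk_right _ _
      rw [← hh] at h1
      exact hmem_inr _ _ h1
    · exfalso
      have h1 : (Sum.inr p.1 : W) ∈ edge (Sum.inr p) := Sym2.mem_mk_right _ _
      rw [hh] at h1
      exact hmem_inr _ _ h1
    · have h1 : (Sum.inr p.1 : W) ∈ edge (Sum.inr p) := Sym2.mem_mk_right _ _
      rw [hh] at h1
      rcases Sym2.mem_iff.1 h1 with h | h
      · exact absurd h Sum.inr_ne_inl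
      · rw [Subtype.ext (Sum.inr_injective h)]
  · -- not diagonal
    rintro (⟨e, he⟩ | p) hd
    · exact H.not_isDiag_of_mem_edgeSet (SimpleGraph.mem_edgeFinset.1 he)
        ((Sym2.isDiag_map hinl).1 hd)
    · simp only [edge, Sym2.mk_isDiag_iff] at hd
      exact Sum.inl_ne_inr hd
  · rintro (e | p) <;> simp [col]
  · -- proper
    rintro (e | p) (e' | p') hne ⟨x, hx, hx'⟩ hcol
    · simp only [col] at hcol
      apply hne
      have : r e = r e' := Fin.ext (by omega)
      rw [r.injective this]
    · rcases x with x | x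
      · have hxe := (hmem_inl _ _).1 hx
        rcases Sym2.mem_iff.1 hx' with h | h
        · have hxv : x = v p'.1.1 := hinl h
          have hrr : r e = p'.1.2 := Fin.ext (by simp only [col] at hcol; omega)
          apply p'.2.2
          rw [← hrr, r.symm_apply_apply, ← hxv]
          exact hxe
        · exact Sum.inl_ne_inr h
      · exact hmem_inr _ _ hx
    · rcases x with x | x
      · have hxe := (hmem_inl _ _).1 hx'
        rcases Sym2.mem_iff.1 hx with h | h
        · have hxv : x = v p.1.1 := hinl h
          have hrr : r e' = p.1.2 := Fin.ext (by simp only [col] at hcol; omega)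
          apply p.2.2
          rw [← hrr, r.symm_apply_apply, ← hxv]
          exact hxe
        · exact Sum.inl_ne_inr h
      · exact hmem_inr _ _ hx'
    · have hcol' : p.1.2 = p'.1.2 := Fin.ext (by simp only [col] at hcol; omega)
      apply hne
      congr 1
      apply Subtype.ext
      rcases Sym2.mem_iff.1 hx with h | h <;> rcases Sym2.mem_iff.1 hx' with h' | h'
      · rw [h] at h'
        exact Prod.ext (hv (hinl h')) hcol'
      · rw [h] at h'
        exact absurd h' Sum.inl_ne_inr
      · rw [h] at h'
        exact absurd h' Sum.inr_ne_inl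
      · rw [h] at h'
        exact Sum.inr_injective h'
  · -- greedy
    have key : ∀ (j : Fin τ) (b : Fin k), ((b : ℕ) < a j ∨ v j ∈ (r.symm b : Sym2 V)) →
        ∃ i, Sum.inl (v j) ∈ edge i ∧ col i = (b : ℕ) + 1 := by
      intro j b hb
      by_cases hmem : v j ∈ (r.symm b : Sym2 V)
      · exact ⟨Sum.inl (r.symm b), (hmem_inl _ _).2 hmem, by simp [col]⟩
      · have hb' : (b : ℕ) < a j := hb.resolve_right hmem
        exact ⟨Sum.inr ⟨(j, b), hb', hmem⟩, Sym2.mem_mk_left _ _, by simp [col]⟩
    rintro (e | p) c hc0 hc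
    · simp only [col] at hc
      have hbk : c - 1 < k := by have := (r e).2; omega
      let b : Fin k := ⟨c - 1, hbk⟩
      have hbr : b < r e := by
        show c - 1 < (r e : ℕ)
        omega
      have hor : (b : ℕ) < a (s e) ∨ v (s e) ∈ (r.symm b : Sym2 V) := by
        by_cases hmem : v (s e) ∈ (r.symm b : Sym2 V)
        · exact Or.inr hmem
        · left
          have hle : s (r.symm b) ≤ s e := by
            apply hrs
            rw [r.apply_symm_apply]
            exact hbr.le
          have hlt : s (r.symm b) < s e := by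
            refine lt_of_le_of_ne hle (fun heq => hmem ?_)
            rw [← heq]
            exact hs _
          have := hra _ _ hlt
          rwa [r.apply_symm_apply] at this
      obtain ⟨i, hi, hci⟩ := key (s e) b hor
      refine ⟨i, ⟨Sum.inl (v (s e)), hi, (hmem_inl _ _).2 (hs e)⟩, ?_⟩
      rw [hci]
      show c - 1 + 1 = c
      omega
    · simp only [col] at hc
      have hbk : c - 1 < k := by have := (p.1.2).2; omega
      let b : Fin k := ⟨c - 1, hbk⟩
      have hb : (b : ℕ) < a p.1.1 := by
        have := p.2.1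
        show c - 1 < _
        omega
      obtain ⟨i, hi, hci⟩ := key p.1.1 b (Or.inl hb)
      refine ⟨i, ⟨Sum.inl (v p.1.1), hi, Sym2.mem_mk_left _ _⟩, ?_⟩
      rw [hci]
      show c - 1 + 1 = c
      omega
  · intro x y hxy
    exact ⟨Sum.inl ⟨s(x, y), SimpleGraph.mem_edgeFinset.2 hxy⟩, rfl⟩
  · intro x y x' y' hxy hxy' hne i j hi hj hcol
    have h1 : i = Sum.inl ⟨s(x, y), SimpleGraph.mem_edgeFinset.2 hxy⟩ := by
      rcases i with e | p
      · congr 1
        apply Subtype.ext
        exact (Sym2.map.injective hinl) (by simpa [edge] using hi)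
      · exfalso
        have h1 : (Sum.inr p.1 : W) ∈ edge (Sum.inr p) := Sym2.mem_mk_right _ _
        rw [hi] at h1
        rcases Sym2.mem_iff.1 h1 with h | h <;> exact absurd h Sum.inr_ne_inl
    have h2 : j = Sum.inl ⟨s(x', y'), SimpleGraph.mem_edgeFinset.2 hxy'⟩ := by
      rcases j with e | p
      · congr 1
        apply Subtype.ext
        exact (Sym2.map.injective hinl) (by simpa [edge] using hj)
      · exfalso
        have h1 : (Sum.inr p.1 : W) ∈ edge (Sum.inr p) := Sym2.mem_mk_right _ _
        rw [hj] at h1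
        rcases Sym2.mem_iff.1 h1 with h | h <;> exact absurd h Sum.inr_ne_inl
    subst h1 h2
    simp only [col] at hcol
    have := r.injective (Fin.ext (by omega) : r ⟨s(x, y), SimpleGraph.mem_edgeFinset.2 hxy⟩ =
      r ⟨s(x', y'), SimpleGraph.mem_edgeFinset.2 hxy'⟩)
    exact hne (congrArg Subtype.val this)

/-- **First-Fit anti-Ramsey numbers**: for every finite graph `H` with at least one edge, Builder
can force a rainbow copy of `H`, and `AR_FF(H) ≤ (τ(H) + 1) k / 2`, where `k` is the number of edges
of `H`. -/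
theorem result (V : Type) [Fintype V] (H : SimpleGraph V) (hH : ∃ u v : V, H.Adj u v) :
    (∃ t, Forces H t) ∧
      (ARFF H : ℝ) ≤ ((tau H : ℝ) + 1) * (H.edgeSet.ncard : ℝ) / 2 := by
  classical
  -- an optimal vertex cover
  have hne : {m | ∃ C : Finset V, C.card = m ∧ ∀ u v : V, H.Adj u v → u ∈ C ∨ v ∈ C}.Nonempty :=
    ⟨_, Finset.univ, rfl, fun u _ _ => Or.inl (Finset.mem_univ u)⟩
  obtain ⟨C, hC, hcover⟩ := Nat.sInf_mem hne
  change C.card = tau H at hC
  set τ := tau H with hτ
  let w : Fin τ ≃ C := (C.equivFinOfCardEq hC).symm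
  have hs : ∀ e : H.edgeFinset, ∃ j : Fin τ, (w j : V) ∈ (e : Sym2 V) := by
    rintro ⟨e, he⟩
    induction e using Sym2.ind with
    | _ x y =>
      rcases hcover x y (by simpa using he) with h | h
      · exact ⟨w.symm ⟨x, h⟩, by simp⟩
      · exact ⟨w.symm ⟨y, h⟩, by simp⟩
  choose s hs using hs
  have hw : Function.Injective (fun j => (w j : V)) :=
    Subtype.val_injective.comp w.injective
  obtain ⟨t₁, ht₁, hle₁⟩ := forces_of_stars H (fun j => (w j : V)) hw s hs
  obtain ⟨t₂, ht₂, hle₂⟩ := forces_of_stars H (fun j => (w (Fin.rev j) : V))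
    (hw.comp Fin.rev_injective) (fun e => Fin.rev (s e)) (by
      intro e
      simpa using hs e)
  have hsum : (∑ j : Fin τ, (Finset.univ.filter (fun e => s e < j)).card) +
      (∑ j : Fin τ, (Finset.univ.filter (fun e => Fin.rev (s e) < j)).card) + H.edgeFinset.card =
      τ * H.edgeFinset.card := by
    have h1 : (∑ j : Fin τ, (Finset.univ.filter (fun e => Fin.rev (s e) < j)).card) =
        ∑ j : Fin τ, (Finset.univ.filter (fun e => j < s e)).card := by
      rw [← Equiv.sum_comp Fin.revPerm]
      apply Finset.sum_congr rfl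
      intro j _
      congr 1
      ext e
      simp [Fin.rev_lt_rev]
    have h2 : H.edgeFinset.card = ∑ j : Fin τ, (Finset.univ.filter (fun e => s e = j)).card := by
      have := Finset.card_eq_sum_card_fiberwise (f := s) (s := Finset.univ) (t := Finset.univ)
        (fun e _ => Finset.mem_univ _)
      rw [← this]
      simp
    have h3 : ∀ j : Fin τ, (Finset.univ.filter (fun e => s e < j)).card +
        (Finset.univ.filter (fun e => j < s e)).card +
        (Finset.univ.filter (fun e => s e = j)).card = H.edgeFinset.card := by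
      intro j
      have h4 : (Finset.univ : Finset H.edgeFinset) = Finset.univ.filter (fun e => s e < j) ∪
          Finset.univ.filter (fun e => j < s e) ∪ Finset.univ.filter (fun e => s e = j) := by
        ext e
        simp only [mem_univ, mem_union, mem_filter, true_and, true_iff]
        rcases lt_trichotomy (s e) j with h | h | h <;> tauto
      have h5 : (Finset.univ : Finset H.edgeFinset).card = H.edgeFinset.card := by simp
      rw [← h5]
      conv_rhs => rw [h4]
      rw [Finset.card_union_of_disjoint, Finset.card_union_of_disjoint]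
      · rw [Finset.disjoint_filter]
        intro e _ h1 h2
        exact absurd h1 (not_lt.2 h2.le)
      · rw [Finset.disjoint_left]
        intro e he he'
        simp only [mem_union, mem_filter, mem_univ, true_and] at he he'
        rcases he with h | h
        · exact absurd he' (ne_of_lt h)
        · exact absurd he' (ne_of_gt h)
    rw [h1]
    conv_lhs => rw [h2]
    rw [← Finset.sum_add_distrib, ← Finset.sum_add_distrib, Finset.sum_congr rfl (fun j _ => h3 j)]
    simp
  have hncard : H.edgeSet.ncard = H.edgeFinset.card := by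
    rw [← SimpleGraph.coe_edgeFinset, Set.ncard_coe_finset]
  refine ⟨⟨t₁, ht₁⟩, ?_⟩
  have h1 : ARFF H ≤ t₁ := Nat.sInf_le ht₁
  have h2 : ARFF H ≤ t₂ := Nat.sInf_le ht₂
  have h3 : 2 * ARFF H ≤ (τ + 1) * H.edgeFinset.card := by
    have : (τ + 1) * H.edgeFinset.card = τ * H.edgeFinset.card + H.edgeFinset.card := by ring
    omega
  have h4 : (2 : ℝ) * ARFF H ≤ ((τ : ℝ) + 1) * (H.edgeFinset.card : ℝ) := by exact_mod_cast h3
  rw [hncard]
  linarith

end Pool.Agent.Results.MP_071c0d_co.HalfBound
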